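import Pool.Agent.Run7.h911.RC2

/-!
# Euler systems and orthonormal systems of Euler systems: Bessel's inequality
-/

set_option autoImplicit false

namespace Pool.Agent.Run7.h641.CT

open NumberField IsDedekindDomain Filter Topology ComplexConjugate
open Pool.Agent.TH861.GL3 (PL qq)
open Pool.Agent.H921R2.TatePole (Lam)
open Run7.h911.RC (wt wt_nonneg summable_wt)

variable {K : Type*} [Field K] [NumberField K] {S : Finset (HeightOneSpectrum (𝓞 K))}

/-- the real inner product with the weights `wt σ` -/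
noncomputable def ip (σ : ℝ) (u v : PL S × ℕ → ℂ) : ℝ := ∑' x, (u x * conj (v x)).re * wt σ x

/-- square summability -/
def Sq (σ : ℝ) (u : PL S × ℕ → ℂ) : Prop := Summable fun x => ‖u x‖ ^ 2 * wt σ x

theorem summable_ip {σ : ℝ} {u v : PL S × ℕ → ℂ} (hu : Sq σ u) (hv : Sq σ v) :
    Summable fun x => (u x * conj (v x)).re * wt σ x := by
  refine Summable.of_norm_bounded (hu.add hv) fun x => ?_
  have h0 := wt_nonneg σ x
  rw [norm_mul, Real.norm_of_nonneg h0, ← add_mul]
  refine mul_le_mul_of_nonneg_right ?_ h0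
  rw [Real.norm_eq_abs]
  have h1 := Complex.abs_re_le_norm (u x * conj (v x))
  rw [norm_mul, RCLike.norm_conj] at h1
  nlinarith [sq_nonneg (‖u x‖ - ‖v x‖), norm_nonneg (u x), norm_nonneg (v x)]

theorem hasSum_ip {σ : ℝ} {u v : PL S × ℕ → ℂ} (hu : Sq σ u) (hv : Sq σ v) :
    HasSum (fun x => (u x * conj (v x)).re * wt σ x) (ip σ u v) := (summable_ip hu hv).hasSum

theorem expand_pt {ι : Type*} [Fintype ι] (X : ℂ) (B : ι → ℂ) (r : ι → ℝ) :
    ‖X - ∑ i, (r i : ℂ) * B i‖ ^ 2 = (X * conj X).re - 2 * ∑ i, r i * (X * conj (B i)).re +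
      ∑ i, ∑ j, r i * r j * (B i * conj (B j)).re := by
  have h1 : ∀ z : ℂ, ‖z‖ ^ 2 = (z * conj z).re := fun z => by
    rw [Complex.mul_conj, Complex.ofReal_re, Complex.normSq_eq_norm_sq]
  rw [h1, map_sub, map_sum]
  set s := ∑ i, (r i : ℂ) * B i with hs
  have h2 : ∑ i, conj ((r i : ℂ) * B i) = conj s := by rw [hs, map_sum]
  rw [h2]
  have h3 : (X - s) * (conj X - conj s) = X * conj X - X * conj s - s * conj X + s * conj s := by ring
  rw [h3, Complex.add_re, Complex.sub_re, Complex.sub_re]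
  have h4 : (X * conj s).re = ∑ i, r i * (X * conj (B i)).re := by
    rw [hs, map_sum, Finset.mul_sum, Complex.re_sum]
    refine Finset.sum_congr rfl fun i _ => ?_
    rw [map_mul, Complex.conj_ofReal, show X * ((r i : ℂ) * conj (B i)) =
      (r i : ℂ) * (X * conj (B i)) by ring, Complex.re_ofReal_mul]
  have h5 : (s * conj X).re = (X * conj s).re := by
    rw [← Complex.conj_re (X * conj s), map_mul, Complex.conj_conj, mul_comm]
  have h6 : (s * conj s).re = ∑ i, ∑ j, r i * r j * (B i * conj (B j)).re := by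
    rw [hs, map_sum, Finset.sum_mul_sum, Complex.re_sum]
    refine Finset.sum_congr rfl fun i _ => ?_
    rw [Complex.re_sum]
    refine Finset.sum_congr rfl fun j _ => ?_
    rw [map_mul, Complex.conj_ofReal, show (r i : ℂ) * B i * ((r j : ℂ) * conj (B j)) =
      ((r i * r j : ℝ) : ℂ) * (B i * conj (B j)) by push_cast; ring, Complex.re_ofReal_mul]
  rw [h5, h4, h6]
  ring

theorem hasSum_expand {ι : Type*} [Fintype ι] {σ : ℝ} {X : PL S × ℕ → ℂ} {B : ι → PL S × ℕ → ℂ}
    (hX : Sq σ X) (hB : ∀ i, Sq σ (B i)) (r : ι → ℝ) :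
    HasSum (fun x => ‖X x - ∑ i, (r i : ℂ) * B i x‖ ^ 2 * wt σ x)
      (ip σ X X - 2 * ∑ i, r i * ip σ X (B i) + ∑ i, ∑ j, r i * r j * ip σ (B i) (B j)) := by
  have h1 := hasSum_ip hX hX
  have h2 : HasSum (fun x => ∑ i, r i * ((X x * conj (B i x)).re * wt σ x))
      (∑ i, r i * ip σ X (B i)) := hasSum_sum fun i _ => (hasSum_ip hX (hB i)).mul_left (r i)
  have h3 : HasSum (fun x => ∑ i, ∑ j, r i * r j * ((B i x * conj (B j x)).re * wt σ x))
      (∑ i, ∑ j, r i * r j * ip σ (B i) (B j)) :=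
    hasSum_sum fun i _ => hasSum_sum fun j _ => (hasSum_ip (hB i) (hB j)).mul_left (r i * r j)
  have e : (fun x => ‖X x - ∑ i, (r i : ℂ) * B i x‖ ^ 2 * wt σ x) = fun x =>
      (X x * conj (X x)).re * wt σ x - 2 * ∑ i, r i * ((X x * conj (B i x)).re * wt σ x) +
        ∑ i, ∑ j, r i * r j * ((B i x * conj (B j x)).re * wt σ x) := by
    funext x
    rw [expand_pt]
    simp only [Finset.sum_mul, Finset.mul_sum, sub_mul, add_mul, mul_assoc]
  rw [e]
  exact (h1.sub (h2.mul_left 2)).add h3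

theorem expand_nonneg {ι : Type*} [Fintype ι] {σ : ℝ} {X : PL S × ℕ → ℂ} {B : ι → PL S × ℕ → ℂ}
    (hX : Sq σ X) (hB : ∀ i, Sq σ (B i)) (r : ι → ℝ) :
    0 ≤ ip σ X X - 2 * ∑ i, r i * ip σ X (B i) + ∑ i, ∑ j, r i * r j * ip σ (B i) (B j) :=
  (hasSum_expand hX hB r).nonneg fun x => mul_nonneg (by positivity) (wt_nonneg σ x)

/-- Bessel's inequality for an almost orthogonal system. -/
theorem bessel {ι : Type*} [Fintype ι] [DecidableEq ι] {A L C : ℝ} {c : ι → ℝ} {G : ι → ι → ℝ}
    (hpos : ∀ r : ι → ℝ, 0 ≤ A - 2 * ∑ i, r i * c i + ∑ i, ∑ j, r i * r j * G i j)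
    (hL : 0 < L) (hC : 0 ≤ C) (hCL : 2 * (C * Fintype.card ι) ≤ L)
    (hG : ∀ i j, |G i j - (if i = j then L else 0)| ≤ C) :
    ∑ i, (c i / L) ^ 2 ≤ A / L * (1 + 2 * (C * Fintype.card ι) / L) := by
  set N : ℝ := (Fintype.card ι : ℝ) with hN
  set T := ∑ i, (c i / L) ^ 2 with hT
  have hA : 0 ≤ A := by
    have := hpos fun _ => 0
    simpa using this
  have hT0 : 0 ≤ T := Finset.sum_nonneg fun i _ => sq_nonneg _
  have h1 := hpos fun i => c i / L
  have h2 : ∑ i, c i / L * c i = L * T := by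
    rw [hT, Finset.mul_sum]
    refine Finset.sum_congr rfl fun i _ => ?_
    field_simp
  have h3 : ∑ i, ∑ j, c i / L * (c j / L) * G i j ≤ L * T + C * (N * T) := by
    have h4 : ∑ i, ∑ j, c i / L * (c j / L) * G i j =
        ∑ i, ∑ j, c i / L * (c j / L) * (if i = j then L else 0) +
        ∑ i, ∑ j, c i / L * (c j / L) * (G i j - (if i = j then L else 0)) := by
      rw [← Finset.sum_add_distrib]
      refine Finset.sum_congr rfl fun i _ => ?_
      rw [← Finset.sum_add_distrib]
      refine Finset.sum_congr rfl fun j _ => ?_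
      ring
    have h5 : ∑ i, ∑ j, c i / L * (c j / L) * (if i = j then L else 0) = L * T := by
      rw [hT, Finset.mul_sum]
      refine Finset.sum_congr rfl fun i _ => ?_
      simp only [mul_ite, mul_zero, Finset.sum_ite_eq, Finset.mem_univ, if_true]
      ring
    have h6 : ∑ i, ∑ j, c i / L * (c j / L) * (G i j - (if i = j then L else 0)) ≤
        C * (∑ i, |c i / L|) ^ 2 := by
      calc _ ≤ ∑ i, ∑ j, |c i / L| * |c j / L| * C := by
            refine Finset.sum_le_sum fun i _ => Finset.sum_le_sum fun j _ => ?_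
            refine (le_abs_self _).trans ?_
            rw [abs_mul, abs_mul]
            exact mul_le_mul_of_nonneg_left (hG i j) (by positivity)
        _ = C * (∑ i, |c i / L|) ^ 2 := by
            rw [sq, Finset.sum_mul_sum, Finset.mul_sum]
            refine Finset.sum_congr rfl fun i _ => ?_
            rw [Finset.mul_sum]
            refine Finset.sum_congr rfl fun j _ => ?_
            ring
    have h7 : (∑ i, |c i / L|) ^ 2 ≤ N * T := by
      have := sq_sum_le_card_mul_sum_sq (s := (Finset.univ : Finset ι)) (f := fun i => |c i / L|)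
      simp only [sq_abs, Finset.card_univ] at this
      exact this
    have h8 := mul_le_mul_of_nonneg_left h7 hC
    rw [h4, h5]
    linarith
  rw [h2] at h1
  have h9 : T * (L - C * N) ≤ A := by nlinarith
  have h10 : L / 2 ≤ L - C * N := by linarith
  have h11 : 0 < L - C * N := by linarith
  have h12 : T ≤ A / (L - C * N) := (le_div_iff₀ h11).2 h9
  refine h12.trans ?_
  rw [div_le_iff₀ h11]
  have h13 : A / L * (1 + 2 * (C * N) / L) * (L - C * N) =
      A + A * (C * N) * (L - 2 * (C * N)) / L ^ 2 := by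
    field_simp
    ring
  rw [h13]
  have hN0 : 0 ≤ N := by rw [hN]; positivity
  have h14 : 0 ≤ A * (C * N) * (L - 2 * (C * N)) / L ^ 2 := by
    have : 0 ≤ L - 2 * (C * N) := by linarith
    positivity
  linarith

end Pool.Agent.Run7.h641.CT
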