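import Pool.Agent.Run7.h911.RC1

/-!
# Systems of cuspidal automorphic representations of `GL_n` over a number field: what is used
-/

set_option autoImplicit false

namespace Pool.Agent.Run7.h641.CT

open NumberField IsDedekindDomain ComplexConjugate
open Pool.Agent.TH861.GL3 (PL qq)
open Run7.h911.RC (logL)

variable {K : Type*} [Field K] [NumberField K] {S : Finset (HeightOneSpectrum (𝓞 K))}

/-- the power sums of the Satake parameters -/
noncomputable def tr {n : ℕ} (a : Fin n → ℂ) (k : ℕ) : ℂ := ∑ j, a j ^ k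

/-- What is used of unitary cuspidal automorphic representations `π_i` of `GL_{n_i}(𝔸_K)`, pairwise
inequivalent and unramified outside the finite set `S`; `α i v` are the Satake parameters of `π_i` at
`v`, and `PL S` is the set of the finite places outside `S`, `qq v` the norm of `v`. All of this is known
(Jacquet, Piatetski-Shapiro, Shalika). -/
structure Cuspidal {ι : Type*} {n : ι → ℕ} (α : ∀ i, PL S → Fin (n i) → ℂ) : Prop where
  /-- the trivial bound for the Satake parameters -/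
  bound : ∀ i v j, ‖α i v j‖ ≤ (qq v.1 : ℝ) ^ (1 / 2 : ℝ)
  /-- absolute convergence of `L(s, π_i × π_i~)` for `Re s > 1` -/
  summable : ∀ (i : ι) (σ : ℝ), 1 < σ → Summable fun x : PL S × ℕ =>
    ‖tr (α i x.1) (x.2 + 1)‖ ^ 2 / ((x.2 : ℝ) + 1) * (((qq x.1.1 : ℕ) : ℝ) ^ (-σ)) ^ (x.2 + 1)
  /-- `L(s, π_i × π_j~)`, `i ≠ j`, is holomorphic and nonzero at `s = 1` -/
  distinct : ∀ i j : ι, i ≠ j → ∃ F : ℂ → ℂ, AnalyticAt ℂ F 1 ∧ F 1 ≠ 0 ∧
    ∀ s : ℂ, 1 < s.re → F s = Complex.exp (logL (fun v k => tr (α i v) k * conj (tr (α j v) k)) s)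
  /-- `L(s, π_i × π_i~)` has a simple pole at `s = 1` -/
  same : ∀ i : ι, ∃ F : ℂ → ℂ, AnalyticAt ℂ F 1 ∧ F 1 ≠ 0 ∧
    ∀ s : ℂ, 1 < s.re →
      F s = (s - 1) * Complex.exp (logL (fun v k => tr (α i v) k * conj (tr (α i v) k)) s)

/-- `log |F(s₀ + ε)| / log (1/ε)`, which tends to the order of the pole at `s₀` (minus the order of the
zero), if there is a meromorphic continuation to a neighbourhood of `s₀`. -/
noncomputable def size (F : ℂ → ℂ) (s₀ : ℂ) (ε : ℝ) : ℝ := Real.log ‖F (s₀ + ε)‖ / Real.log (1 / ε)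

end Pool.Agent.Run7.h641.CT
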