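import Pool.Agent.Run7.h641.CT.Gram
import Pool.Agent.W540.BE.EC

/-!
# The Euler products of an elliptic curve twisted by a cuspidal representation
-/

set_option autoImplicit false

namespace Pool.Agent.Run7.h641.CT

open NumberField IsDedekindDomain Filter Topology ComplexConjugate
open Pool.Agent.TH861.GL3 (PL qq)
open Pool.Agent.H921R2.TatePole (Lam)
open Run7.h911.RC (wt logL wt_nonneg summable_wt log_bdd Z_bdd wt_bound Z)
open Pool.Agent.W540.BE (trv)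

theorem euler_general {K : Type*} [Field K] [NumberField K] {S : Finset (HeightOneSpectrum (𝓞 K))}
    {J : Type*} [Fintype J] (c : PL S → J → ℂ) (h1 : ∀ v j, ‖c v j‖ < 1) {T : ℂ}
    (hs : HasSum (fun x : PL S × ℕ => (∑ j, c x.1 j ^ (x.2 + 1)) / ((x.2 : ℂ) + 1)) T) :
    HasProd (fun v : PL S => ∏ j, (1 - c v j)⁻¹) (Complex.exp T) := by
  have h2 : ∀ v : PL S, HasSum (fun k : ℕ => (∑ j, c v j ^ (k + 1)) / ((k : ℂ) + 1))
      (∑ j, -Complex.log (1 - c v j)) := by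
    intro v
    have h3 := hasSum_sum (s := Finset.univ) fun j _ => Complex.hasSum_taylorSeries_neg_log' (h1 v j)
    have e : (fun k : ℕ => (∑ j, c v j ^ (k + 1)) / ((k : ℂ) + 1)) =
        fun k : ℕ => ∑ j, c v j ^ (k + 1) / ((k : ℂ) + 1) := by
      funext k
      rw [Finset.sum_div]
    rw [e]
    exact h3
  have h3 := (hs.prod_fiberwise h2).cexp
  have e : (fun v : PL S => ∏ j, (1 - c v j)⁻¹) =
      Complex.exp ∘ fun v : PL S => ∑ j, -Complex.log (1 - c v j) := by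
    funext v
    rw [Function.comp_apply, Complex.exp_sum]
    refine Finset.prod_congr rfl fun j _ => ?_
    rw [Complex.exp_neg, Complex.exp_log]
    intro h4
    have h5 : c v j = 1 := (sub_eq_zero.1 h4).symm
    have h6 := h1 v j
    rw [h5, norm_one] at h6
    exact lt_irrefl _ h6
  rw [e]
  exact h3

/-- The Euler product outside `S` of the `L`-function of the elliptic curve `E` with equation `W`,
twisted by the representation `π` with the Satake parameters `a`: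
`∏_v ∏_j (1 - a_v α_{v,j} q_v^{-s} + q_v (α_{v,j} q_v^{-s})²)⁻¹`, `a_v = q_v + 1 - #E(k_v)`. -/
noncomputable def LE {K : Type} [Field K] [NumberField K] {S : Finset (HeightOneSpectrum (𝓞 K))}
    (W : WeierstrassCurve (𝓞 K)) {n : ℕ} (a : PL S → Fin n → ℂ) (s : ℂ) : ℂ :=
  ∏' v : PL S, ∏ j, (1 - (trv W v.1 : ℂ) * (a v j * (qq v.1 : ℂ) ^ (-s)) +
    (qq v.1 : ℂ) * (a v j * (qq v.1 : ℂ) ^ (-s)) ^ 2)⁻¹

/-- The Euler product outside `S` of the symmetric square `L`-function of `E`: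
`∏_v ((1 - q_v q_v^{-s}) (1 - (a_v² - 2 q_v) q_v^{-s} + q_v² q_v^{-2s}))⁻¹`. -/
noncomputable def LSym {K : Type} [Field K] [NumberField K] (W : WeierstrassCurve (𝓞 K))
    (S : Finset (HeightOneSpectrum (𝓞 K))) (s : ℂ) : ℂ :=
  ∏' v : PL S, ((1 - (qq v.1 : ℂ) * (qq v.1 : ℂ) ^ (-s)) *
    (1 - ((trv W v.1 : ℂ) ^ 2 - 2 * (qq v.1 : ℂ)) * (qq v.1 : ℂ) ^ (-s) +
      (qq v.1 : ℂ) ^ 2 * ((qq v.1 : ℂ) ^ (-s)) ^ 2))⁻¹

variable {K : Type} [Field K] [NumberField K] {S : Finset (HeightOneSpectrum (𝓞 K))}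
  {W : WeierstrassCurve (𝓞 K)}

/-- `γ` are the normalised Frobenius eigenvalues of `E`. -/
structure Gam (W : WeierstrassCurve (𝓞 K)) (γ : PL S → Fin 2 → ℂ) : Prop where
  norm : ∀ v l, ‖γ v l‖ = 1
  sum : ∀ v, γ v 0 + γ v 1 = (trv W v.1 : ℂ) / ((Real.sqrt (qq v.1 : ℝ) : ℝ) : ℂ)
  prod : ∀ v, γ v 0 * γ v 1 = 1

theorem sqrt_pos' (v : PL S) : 0 < Real.sqrt (qq v.1 : ℝ) :=
  Real.sqrt_pos.2 (Pool.Agent.TH861.GL3.qq_pos v.1)

theorem sqrt_sq' (v : PL S) : ((Real.sqrt (qq v.1 : ℝ) : ℝ) : ℂ) ^ 2 = (qq v.1 : ℂ) := by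
  rw [← Complex.ofReal_pow, Real.sq_sqrt (Pool.Agent.TH861.GL3.qq_pos v.1).le]
  norm_cast

theorem exists_gam (hS : ∀ v : HeightOneSpectrum (𝓞 K), 6 * W.Δ ∈ v.asIdeal → v ∈ S) :
    ∃ γ : PL S → Fin 2 → ℂ, Gam W γ := by
  have h1 : ∀ v : PL S, ∃ β : Fin 2 → ℂ, (∀ j, ‖β j‖ = (qq v.1 : ℝ) ^ (1 / 2 : ℝ)) ∧
      β 0 + β 1 = ((trv W v.1 : ℝ) : ℂ) ∧ β 0 * β 1 = ((qq v.1 : ℝ) : ℂ) := by
    intro v
    have h6 : (6 : 𝓞 K) ∉ v.1.asIdeal := fun h => v.2 (hS _ (Ideal.mul_mem_right _ _ h))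
    have hΔ : W.Δ ∉ v.1.asIdeal := fun h => v.2 (hS _ (Ideal.mul_mem_left _ _ h))
    exact Pool.Agent.W540.BE.exists_roots (Pool.Agent.TH861.GL3.qq_pos v.1)
      (Pool.Agent.W540.BE.hasse_v W v.1 h6 hΔ)
  choose β hn hs hp using h1
  have hq := fun v : PL S => sqrt_pos' v
  refine ⟨fun v l => β v l / ((Real.sqrt (qq v.1 : ℝ) : ℝ) : ℂ), fun v l => ?_, fun v => ?_,
    fun v => ?_⟩
  · rw [norm_div, hn, Complex.norm_real, Real.norm_of_nonneg (hq v).le, Real.sqrt_eq_rpow,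
      div_self]
    exact (Real.rpow_pos_of_pos (Pool.Agent.TH861.GL3.qq_pos v.1) _).ne'
  · rw [← add_div, hs]
    push_cast
    rfl
  · have h0 : ((Real.sqrt (qq v.1 : ℝ) : ℝ) : ℂ) ≠ 0 := by exact_mod_cast (hq v).ne'
    rw [div_mul_div_comm, hp, ← sq, sqrt_sq']
    have : (qq v.1 : ℂ) ≠ 0 := by
      exact_mod_cast (Pool.Agent.TH861.GL3.qq_pos v.1).ne'
    rw [Complex.ofReal_natCast, div_self this]

/-- the Euler system of `E` -/
noncomputable def XE (γ : PL S → Fin 2 → ℂ) (x : PL S × ℕ) : ℂ := ∑ l, γ x.1 l ^ (x.2 + 1)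

theorem Gam.conj_eq {γ : PL S → Fin 2 → ℂ} (h : Gam W γ) (v : PL S) :
    conj (γ v 0) = γ v 1 ∧ conj (γ v 1) = γ v 0 := by
  have h0 : γ v 0 ≠ 0 := fun e => by
    have := h.norm v 0
    rw [e, norm_zero] at this
    exact zero_ne_one this
  have h1 : γ v 0 * conj (γ v 0) = 1 := by
    rw [Complex.mul_conj, Complex.normSq_eq_norm_sq, h.norm]
    norm_num
  have h2 : conj (γ v 0) = γ v 1 := mul_left_cancel₀ h0 (h1.trans (h.prod v).symm)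
  exact ⟨h2, by rw [← h2, Complex.conj_conj]⟩

theorem Gam.conj_X {γ : PL S → Fin 2 → ℂ} (h : Gam W γ) (x : PL S × ℕ) :
    conj (XE γ x) = XE γ x := by
  unfold XE
  rw [Fin.sum_univ_two, map_add, map_pow, map_pow, (h.conj_eq x.1).1, (h.conj_eq x.1).2, add_comm]

theorem Gam.norm_X {γ : PL S → Fin 2 → ℂ} (h : Gam W γ) (x : PL S × ℕ) : ‖XE γ x‖ ≤ 2 := by
  unfold XE
  refine (norm_sum_le _ _).trans ?_
  simp [h.norm]

theorem Gam.sq {γ : PL S → Fin 2 → ℂ} (h : Gam W γ) {σ : ℝ} (hσ : 1 < σ) : Sq σ (XE γ) := by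
  refine Summable.of_nonneg_of_le (fun x => mul_nonneg (by positivity) (wt_nonneg σ x))
    (fun x => ?_) ((summable_wt (S := S) hσ).mul_left 4)
  refine mul_le_mul_of_nonneg_right ?_ (wt_nonneg σ x)
  have := h.norm_X x
  nlinarith [norm_nonneg (XE γ x)]

/-- the symmetric square -/
noncomputable def YE (γ : PL S → Fin 2 → ℂ) (x : PL S × ℕ) : ℂ :=
  ∑ j : Fin 3, (![1, γ x.1 0 ^ 2, γ x.1 1 ^ 2] j) ^ (x.2 + 1)

theorem Gam.X_sq {γ : PL S → Fin 2 → ℂ} (h : Gam W γ) (x : PL S × ℕ) :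
    XE γ x * conj (XE γ x) = 1 + YE γ x := by
  rw [h.conj_X]
  unfold XE YE
  rw [Fin.sum_univ_two, Fin.sum_univ_three]
  simp only [Matrix.cons_val_zero, Matrix.cons_val_one, Matrix.cons_val, one_pow]
  have h1 : γ x.1 0 ^ (x.2 + 1) * γ x.1 1 ^ (x.2 + 1) = 1 := by
    rw [← mul_pow, h.prod, one_pow]
  rw [← pow_mul, ← pow_mul, mul_comm 2, pow_mul, pow_mul]
  linear_combination 2 * h1

theorem Gam.ip_bounds {γ : PL S → Fin 2 → ℂ} (h : Gam W γ) {σ : ℝ} (hσ : 1 < σ) :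
    0 ≤ ip σ (XE γ) (XE γ) ∧ ip σ (XE γ) (XE γ) ≤ 4 * ∑' x : PL S × ℕ, wt σ x := by
  have h1 : ∀ x, (XE γ x * conj (XE γ x)).re = ‖XE γ x‖ ^ 2 := fun x => by
    rw [Complex.mul_conj, Complex.ofReal_re, Complex.normSq_eq_norm_sq]
  unfold ip
  constructor
  · refine tsum_nonneg fun x => ?_
    rw [h1]
    exact mul_nonneg (by positivity) (wt_nonneg σ x)
  · rw [← tsum_mul_left]
    refine Summable.tsum_le_tsum (fun x => ?_) (summable_ip (h.sq hσ) (h.sq hσ))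
      ((summable_wt hσ).mul_left 4)
    rw [h1]
    refine mul_le_mul_of_nonneg_right ?_ (wt_nonneg σ x)
    have := h.norm_X x
    nlinarith [norm_nonneg (XE γ x)]

theorem cpow_half {v : PL S} (ε : ℝ) : (qq v.1 : ℂ) ^ (-(3 / 2 + (ε : ℂ))) =
    (((Real.sqrt (qq v.1 : ℝ) : ℝ) : ℂ))⁻¹ * (((qq v.1 : ℝ) ^ (-(1 + ε)) : ℝ) : ℂ) := by
  have hq := Pool.Agent.TH861.GL3.qq_pos v.1
  have h1 : (qq v.1 : ℂ) ^ (-(3 / 2 + (ε : ℂ))) = (((qq v.1 : ℝ) ^ (-(3 / 2 + ε)) : ℝ) : ℂ) := by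
    rw [Complex.ofReal_cpow hq.le]
    push_cast
    rfl
  rw [h1, ← Complex.ofReal_inv, ← Complex.ofReal_mul, Real.sqrt_eq_rpow, ← Real.rpow_neg hq.le,
    ← Real.rpow_add hq]
  congr 2
  ring

theorem cpow_one {v : PL S} (ε : ℝ) : (qq v.1 : ℂ) ^ (-(2 + (ε : ℂ))) =
    ((qq v.1 : ℂ))⁻¹ * (((qq v.1 : ℝ) ^ (-(1 + ε)) : ℝ) : ℂ) := by
  have hq := Pool.Agent.TH861.GL3.qq_pos v.1
  have h1 : (qq v.1 : ℂ) ^ (-(2 + (ε : ℂ))) = (((qq v.1 : ℝ) ^ (-(2 + ε)) : ℝ) : ℂ) := by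
    rw [Complex.ofReal_cpow hq.le]
    push_cast
    rfl
  have h2 : ((qq v.1 : ℂ))⁻¹ = (((qq v.1 : ℝ) ^ (-1 : ℝ) : ℝ) : ℂ) := by
    rw [Real.rpow_neg_one]
    push_cast
    rfl
  rw [h1, h2, ← Complex.ofReal_mul, ← Real.rpow_add hq]
  congr 2
  ring

theorem wq_lt {v : PL S} {ε : ℝ} (hε : 0 < ε) :
    0 < (qq v.1 : ℝ) ^ (-(1 + ε)) ∧ (qq v.1 : ℝ) ^ (-(1 + ε)) < (qq v.1 : ℝ) ^ (-(1 / 2) : ℝ) ∧
      (qq v.1 : ℝ) ^ (-(1 + ε)) < 1 := by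
  have hq := Pool.Agent.TH861.GL3.one_lt_qq v.1
  refine ⟨by positivity, Real.rpow_lt_rpow_of_exponent_lt hq (by linarith),
    Real.rpow_lt_one_of_one_lt_of_neg hq (by linarith)⟩

/-- The twisted Euler product. -/
theorem Gam.LE_eq {γ : PL S → Fin 2 → ℂ} (h : Gam W γ) {n : ℕ} {a : PL S → Fin n → ℂ}
    (ha : ∀ v j, ‖a v j‖ ≤ (qq v.1 : ℝ) ^ (1 / 2 : ℝ)) {ε : ℝ} (hε : 0 < ε)
    (hsq : Sq (1 + ε) (cj a)) :
    LE W a (3 / 2 + ε) ≠ 0 ∧ Real.log ‖LE W a (3 / 2 + ε)‖ = ip (1 + ε) (XE γ) (cj a) := by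
  have hσ : (1 : ℝ) < 1 + ε := by linarith
  have hsum := summable_mul (h.sq hσ) hsq
  set c : PL S → Fin n × Fin 2 → ℂ := fun v p =>
    a v p.1 * γ v p.2 * (((qq v.1 : ℝ) ^ (-(1 + ε)) : ℝ) : ℂ) with hc
  have h1 : ∀ v p, ‖c v p‖ < 1 := by
    intro v p
    obtain ⟨w0, w1, -⟩ := wq_lt (v := v) hε
    have hq := Pool.Agent.TH861.GL3.qq_pos v.1
    rw [hc]
    simp only
    rw [norm_mul, norm_mul, h.norm, mul_one, Complex.norm_real, Real.norm_of_nonneg w0.le]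
    calc ‖a v p.1‖ * (qq v.1 : ℝ) ^ (-(1 + ε)) ≤
          (qq v.1 : ℝ) ^ (1 / 2 : ℝ) * (qq v.1 : ℝ) ^ (-(1 + ε)) :=
          mul_le_mul_of_nonneg_right (ha v p.1) w0.le
      _ < (qq v.1 : ℝ) ^ (1 / 2 : ℝ) * (qq v.1 : ℝ) ^ (-(1 / 2) : ℝ) :=
          mul_lt_mul_of_pos_left w1 (by positivity)
      _ = 1 := by
          rw [← Real.rpow_add hq]
          norm_num
  have e1 : ∀ x : PL S × ℕ, (∑ p, c x.1 p ^ (x.2 + 1)) / ((x.2 : ℂ) + 1) =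
      XE γ x * conj (cj a x) * (wt (1 + ε) x : ℂ) := by
    intro x
    unfold XE cj tr wt
    rw [Complex.conj_conj, hc]
    simp only [mul_pow]
    rw [← Finset.sum_mul, Fintype.sum_prod_type]
    simp only
    rw [← Finset.sum_mul_sum]
    push_cast
    ring
  have h2 : HasSum (fun x : PL S × ℕ => (∑ p, c x.1 p ^ (x.2 + 1)) / ((x.2 : ℂ) + 1))
      (∑' x, XE γ x * conj (cj a x) * (wt (1 + ε) x : ℂ)) := by
    rw [show (fun x : PL S × ℕ => (∑ p, c x.1 p ^ (x.2 + 1)) / ((x.2 : ℂ) + 1)) =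
      fun x => XE γ x * conj (cj a x) * (wt (1 + ε) x : ℂ) from funext e1]
    exact hsum.hasSum
  have h3 := euler_general c h1 h2
  have e2 : LE W a (3 / 2 + ε) = ∏' v : PL S, ∏ p, (1 - c v p)⁻¹ := by
    unfold LE
    refine tprod_congr fun v => ?_
    rw [Fintype.prod_prod_type]
    refine Finset.prod_congr rfl fun j _ => ?_
    rw [Fin.prod_univ_two, ← mul_inv]
    congr 1
    rw [hc]
    simp only
    rw [cpow_half]
    set w : ℂ := (((qq v.1 : ℝ) ^ (-(1 + ε)) : ℝ) : ℂ) with hw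
    set r : ℂ := ((Real.sqrt (qq v.1 : ℝ) : ℝ) : ℂ) with hr
    have hr0 : r ≠ 0 := by
      rw [hr]
      exact_mod_cast (sqrt_pos' v).ne'
    have hr2 : r ^ 2 = (qq v.1 : ℂ) := sqrt_sq' v
    have hs : (trv W v.1 : ℂ) = (γ v 0 + γ v 1) * r := by
      rw [h.sum v, div_mul_cancel₀ _ hr0]
    rw [hs, ← hr2]
    have hp := h.prod v
    field_simp
    linear_combination (-(a v j ^ 2 * w ^ 2)) * hp
  rw [e2, h3.tprod_eq]
  refine ⟨Complex.exp_ne_zero _, ?_⟩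
  rw [Complex.norm_exp, Real.log_exp, Complex.re_tsum hsum]
  unfold ip
  refine tsum_congr fun x => ?_
  rw [Complex.re_mul_ofReal]

/-- The symmetric square. -/
theorem Gam.LSym_eq {γ : PL S → Fin 2 → ℂ} (h : Gam W γ) {ε : ℝ} (hε : 0 < ε) :
    LSym W S (2 + ε) ≠ 0 ∧ Real.log ‖LSym W S (2 + ε)‖ =
      ip (1 + ε) (XE γ) (XE γ) - ∑' x : PL S × ℕ, wt (1 + ε) x := by
  have hσ : (1 : ℝ) < 1 + ε := by linarith
  have hw := summable_wt (S := S) hσ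
  have hwc : Summable fun x : PL S × ℕ => (wt (1 + ε) x : ℂ) := Complex.ofRealCLM.summable hw
  have hsum : Summable fun x : PL S × ℕ => YE γ x * (wt (1 + ε) x : ℂ) := by
    refine ((summable_mul (h.sq hσ) (h.sq hσ)).sub hwc).congr fun x => ?_
    rw [h.X_sq]
    ring
  set c : PL S → Fin 3 → ℂ := fun v j =>
    (![1, γ v 0 ^ 2, γ v 1 ^ 2] j) * (((qq v.1 : ℝ) ^ (-(1 + ε)) : ℝ) : ℂ) with hc
  have h1 : ∀ v j, ‖c v j‖ < 1 := by
    intro v j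
    obtain ⟨w0, -, w1⟩ := wq_lt (v := v) hε
    rw [hc]
    simp only
    rw [norm_mul, Complex.norm_real, Real.norm_of_nonneg w0.le]
    have h2 : ‖(![1, γ v 0 ^ 2, γ v 1 ^ 2] : Fin 3 → ℂ) j‖ = 1 := by
      fin_cases j <;> simp [h.norm]
    rw [h2, one_mul]
    exact w1
  have e1 : ∀ x : PL S × ℕ, (∑ p, c x.1 p ^ (x.2 + 1)) / ((x.2 : ℂ) + 1) =
      YE γ x * (wt (1 + ε) x : ℂ) := by
    intro x
    unfold YE wt
    rw [hc]
    simp only [mul_pow]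
    rw [← Finset.sum_mul]
    push_cast
    ring
  have h2 : HasSum (fun x : PL S × ℕ => (∑ p, c x.1 p ^ (x.2 + 1)) / ((x.2 : ℂ) + 1))
      (∑' x, YE γ x * (wt (1 + ε) x : ℂ)) := by
    rw [show (fun x : PL S × ℕ => (∑ p, c x.1 p ^ (x.2 + 1)) / ((x.2 : ℂ) + 1)) =
      fun x => YE γ x * (wt (1 + ε) x : ℂ) from funext e1]
    exact hsum.hasSum
  have h3 := euler_general c h1 h2
  have e2 : LSym W S (2 + ε) = ∏' v : PL S, ∏ p, (1 - c v p)⁻¹ := by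
    unfold LSym
    refine tprod_congr fun v => ?_
    rw [Fin.prod_univ_three, ← mul_inv, ← mul_inv]
    congr 1
    rw [hc]
    simp only [Matrix.cons_val_zero, Matrix.cons_val_one, Matrix.cons_val]
    rw [cpow_one]
    set w : ℂ := (((qq v.1 : ℝ) ^ (-(1 + ε)) : ℝ) : ℂ) with hw
    set r : ℂ := ((Real.sqrt (qq v.1 : ℝ) : ℝ) : ℂ) with hr
    have hr0 : r ≠ 0 := by
      rw [hr]
      exact_mod_cast (sqrt_pos' v).ne'
    have hr2 : r ^ 2 = (qq v.1 : ℂ) := sqrt_sq' v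
    have hs : (trv W v.1 : ℂ) = (γ v 0 + γ v 1) * r := by
      rw [h.sum v, div_mul_cancel₀ _ hr0]
    rw [hs, ← hr2]
    have hp := h.prod v
    have hp2 : γ v 0 ^ 2 * γ v 1 ^ 2 = 1 := by rw [← mul_pow, hp, one_pow]
    field_simp
    linear_combination (-(1 - w)) * w ^ 2 * hp2 - 2 * (1 - w) * w * hp
  rw [e2, h3.tprod_eq]
  refine ⟨Complex.exp_ne_zero _, ?_⟩
  rw [Complex.norm_exp, Real.log_exp, Complex.re_tsum hsum]
  unfold ip
  rw [← (summable_ip (h.sq hσ) (h.sq hσ)).tsum_sub hw]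
  refine tsum_congr fun x => ?_
  rw [Complex.re_mul_ofReal, h.X_sq, Complex.add_re, Complex.one_re]
  ring

end Pool.Agent.Run7.h641.CT
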