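import Pool.Agent.Run7.h641.CT.Bessel
import Pool.Agent.Run7.h641.CT.Defs

/-!
# The Gram matrix of a system of cuspidal representations
-/

set_option autoImplicit false

namespace Pool.Agent.Run7.h641.CT

open NumberField IsDedekindDomain Filter Topology ComplexConjugate
open Pool.Agent.TH861.GL3 (PL qq)
open Pool.Agent.H921R2.TatePole (Lam)
open Run7.h911.RC (wt logL wt_nonneg summable_wt log_bdd Z_bdd wt_bound Z)

variable {K : Type*} [Field K] [NumberField K] {S : Finset (HeightOneSpectrum (𝓞 K))}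

theorem logL_eq (f : PL S → ℕ → ℂ) (σ : ℝ) :
    logL f (σ : ℂ) = ∑' x : PL S × ℕ, f x.1 (x.2 + 1) * (wt σ x : ℂ) := by
  unfold logL
  refine tsum_congr fun x => ?_
  unfold wt
  push_cast
  rw [Complex.ofReal_cpow (Pool.Agent.TH861.GL3.qq_pos x.1.1).le]
  push_cast
  ring

theorem logL_re {f : PL S → ℕ → ℂ} {σ : ℝ}
    (hs : Summable fun x : PL S × ℕ => f x.1 (x.2 + 1) * (wt σ x : ℂ)) :
    (logL f (σ : ℂ)).re = ∑' x : PL S × ℕ, (f x.1 (x.2 + 1)).re * wt σ x := by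
  rw [logL_eq, Complex.re_tsum hs]
  refine tsum_congr fun x => ?_
  rw [Complex.re_mul_ofReal]

theorem summable_mul {σ : ℝ} {u v : PL S × ℕ → ℂ} (hu : Sq σ u) (hv : Sq σ v) :
    Summable fun x => u x * conj (v x) * (wt σ x : ℂ) := by
  refine Summable.of_norm_bounded (hu.add hv) fun x => ?_
  have h0 := wt_nonneg σ x
  rw [norm_mul, norm_mul, RCLike.norm_conj, Complex.norm_real, Real.norm_of_nonneg h0, ← add_mul]
  refine mul_le_mul_of_nonneg_right ?_ h0
  nlinarith [sq_nonneg (‖u x‖ - ‖v x‖), norm_nonneg (u x), norm_nonneg (v x)]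

/-- the conjugate traces -/
noncomputable def cj {n : ℕ} (a : PL S → Fin n → ℂ) (x : PL S × ℕ) : ℂ := conj (tr (a x.1) (x.2 + 1))

variable {ι : Type*} {n : ι → ℕ} {α : ∀ i, PL S → Fin (n i) → ℂ}

theorem Cuspidal.sq (h : Cuspidal α) (i : ι) {σ : ℝ} (hσ : 1 < σ) : Sq σ (cj (α i)) := by
  refine (h.summable i σ hσ).congr fun x => ?_
  unfold cj wt
  rw [RCLike.norm_conj]
  ring

theorem Cuspidal.ip_eq (h : Cuspidal α) (i j : ι) {σ : ℝ} (hσ : 1 < σ) :
    (logL (fun v k => tr (α i v) k * conj (tr (α j v) k)) (σ : ℂ)).re =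
      ip σ (cj (α i)) (cj (α j)) := by
  have h1 := summable_mul (h.sq j hσ) (h.sq i hσ)
  rw [logL_re]
  · unfold ip cj
    refine tsum_congr fun x => ?_
    rw [← Complex.conj_re (tr (α i x.1) (x.2 + 1) * _), map_mul]
  · refine h1.congr fun x => ?_
    unfold cj
    rw [Complex.conj_conj]
    ring

/-- The Gram matrix. -/
theorem Cuspidal.gram [Fintype ι] [DecidableEq ι] (h : Cuspidal α) : ∃ C : ℝ, 0 ≤ C ∧
    ∀ᶠ σ : ℝ in 𝓝[>] 1, ∀ i j,
      |ip σ (cj (α i)) (cj (α j)) - (if i = j then Lam σ else 0)| ≤ C := by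
  have key : ∀ i j : ι, ∃ C : ℝ, ∀ᶠ σ : ℝ in 𝓝[>] 1,
      |ip σ (cj (α i)) (cj (α j)) - (if i = j then Lam σ else 0)| ≤ C := by
    intro i j
    by_cases hij : i = j
    · subst hij
      obtain ⟨F, hF, hF1, hE⟩ := h.same i
      obtain ⟨C, hC⟩ := log_bdd hF hF1
      refine ⟨C, ?_⟩
      filter_upwards [hC, self_mem_nhdsWithin] with σ h1 h2
      have hσ : (1 : ℝ) < σ := h2
      have e := hE (σ : ℂ) (by simpa using hσ)
      have h3 : Real.log ‖F (σ : ℂ)‖ = ip σ (cj (α i)) (cj (α i)) - Lam σ := by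
        rw [e, norm_mul, Complex.norm_exp, Real.log_mul, Real.log_exp, h.ip_eq i i hσ]
        · unfold Lam
          rw [one_div, Real.log_inv]
          have : ‖(σ : ℂ) - 1‖ = σ - 1 := by
            rw [← Complex.ofReal_one, ← Complex.ofReal_sub, Complex.norm_real,
              Real.norm_of_nonneg (by linarith)]
          rw [this]
          ring
        · rw [norm_ne_zero_iff]
          intro h4
          have h5 : (σ : ℂ) = 1 := sub_eq_zero.1 h4
          have h6 : σ = 1 := by exact_mod_cast h5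
          linarith
        · exact (Real.exp_pos _).ne'
      rw [if_pos rfl, ← h3]
      exact h1.2
    · obtain ⟨F, hF, hF1, hE⟩ := h.distinct i j hij
      obtain ⟨C, hC⟩ := log_bdd hF hF1
      refine ⟨C, ?_⟩
      filter_upwards [hC, self_mem_nhdsWithin] with σ h1 h2
      have hσ : (1 : ℝ) < σ := h2
      have e := hE (σ : ℂ) (by simpa using hσ)
      have h3 := h1.2
      rw [e, Complex.norm_exp, Real.log_exp, h.ip_eq i j hσ] at h3
      rw [if_neg hij, sub_zero]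
      exact h3
  choose C hC using key
  refine ⟨∑ i, ∑ j, |C i j|, Finset.sum_nonneg fun i _ => Finset.sum_nonneg fun j _ => abs_nonneg _, ?_⟩
  have h1 : ∀ᶠ σ : ℝ in 𝓝[>] 1, ∀ i j,
      |ip σ (cj (α i)) (cj (α j)) - (if i = j then Lam σ else 0)| ≤ C i j :=
    eventually_all.2 fun i => eventually_all.2 fun j => hC i j
  filter_upwards [h1] with σ h2 i j
  refine (h2 i j).trans ((le_abs_self _).trans ?_)
  refine (Finset.single_le_sum (f := fun j => |C i j|) (fun j _ => abs_nonneg _)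
    (Finset.mem_univ j)).trans ?_
  exact Finset.single_le_sum (f := fun i => ∑ j, |C i j|)
    (fun i _ => Finset.sum_nonneg fun j _ => abs_nonneg _) (Finset.mem_univ i)

theorem Lam_tendsto : Tendsto (fun ε : ℝ => Lam (1 + ε)) (𝓝[>] 0) atTop := by
  have h1 := tendsto_neg_atBot_atTop.comp Real.tendsto_log_nhdsGT_zero
  refine h1.congr fun ε => ?_
  unfold Lam
  rw [one_div, Real.log_inv, add_sub_cancel_left]
  rfl

theorem shift : Tendsto (fun ε : ℝ => 1 + ε) (𝓝[>] 0) (𝓝[>] 1) := by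
  rw [tendsto_nhdsWithin_iff]
  constructor
  · have : Tendsto (fun ε : ℝ => 1 + ε) (𝓝 0) (𝓝 (1 + 0)) := tendsto_const_nhds.add tendsto_id
    rw [add_zero] at this
    exact this.mono_left nhdsWithin_le_nhds
  · filter_upwards [self_mem_nhdsWithin] with ε hε
    have hε' : (0 : ℝ) < ε := hε
    change (1 : ℝ) < 1 + ε
    linarith

/-- the sum of the weights -/
theorem wt_total (S : Finset (HeightOneSpectrum (𝓞 K))) : ∃ C : ℝ, ∀ᶠ σ : ℝ in 𝓝[>] 1,
    |∑' x : PL S × ℕ, wt σ x - Lam σ| ≤ C := by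
  obtain ⟨C, hC⟩ := Z_bdd S
  obtain ⟨C', hC'⟩ := wt_bound S
  refine ⟨C + C', ?_⟩
  filter_upwards [hC, self_mem_nhdsWithin] with σ h1 h2
  have h3 := hC' σ h2
  rw [abs_le] at h1 h3 ⊢
  constructor <;> linarith [h1.1, h1.2, h3.1, h3.2]

/-- **Bessel's inequality.** For an Euler system `X` whose squares have the sum `A σ`, `A σ ≤ M Lam σ`. -/
theorem Cuspidal.bessel [Fintype ι] (h : Cuspidal α) {X : PL S × ℕ → ℂ}
    (hX : ∀ σ : ℝ, 1 < σ → Sq σ X) {M : ℝ} (hM : ∀ᶠ σ : ℝ in 𝓝[>] 1, ip σ X X ≤ M * Lam σ)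
    {η : ℝ} (hη : 0 < η) :
    ∀ᶠ ε : ℝ in 𝓝[>] 0, ∑ i, (ip (1 + ε) X (cj (α i)) / Lam (1 + ε)) ^ 2 ≤
      ip (1 + ε) X X / Lam (1 + ε) + η := by
  classical
  obtain ⟨C, hC, hG⟩ := h.gram
  set N : ℝ := (Fintype.card ι : ℝ) with hN
  have hN0 : 0 ≤ N := by positivity
  have h1 := Lam_tendsto.eventually_ge_atTop (2 * (C * N) + 1)
  have h2 := Lam_tendsto.eventually_ge_atTop (|M| * (2 * (C * N)) / η)
  filter_upwards [shift.eventually hG, shift.eventually hM, h1, h2, self_mem_nhdsWithin] with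
    ε a1 a2 a3 a4 a5
  have hσ : (1 : ℝ) < 1 + ε := by
    have : (0 : ℝ) < ε := a5
    linarith
  set L := Lam (1 + ε) with hL
  have hCN : 0 ≤ C * N := by positivity
  have hL0 : 0 < L := by linarith
  have b1 := CT.bessel (fun r => expand_nonneg (hX _ hσ) (fun i => h.sq i hσ) r) hL0 hC
    (by rw [← hN]; linarith) a1
  refine b1.trans ?_
  rw [← hN, mul_add, mul_one]
  refine add_le_add le_rfl ?_
  have b2 : ip (1 + ε) X X / L ≤ |M| := by
    rw [div_le_iff₀ hL0]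
    exact a2.trans (mul_le_mul_of_nonneg_right (le_abs_self _) hL0.le)
  calc ip (1 + ε) X X / L * (2 * (C * N) / L) ≤ |M| * (2 * (C * N) / L) := by
        exact mul_le_mul_of_nonneg_right b2 (by positivity)
    _ = |M| * (2 * (C * N)) / L := by ring
    _ ≤ η := by
        rw [div_le_iff₀ hL0]
        rw [div_le_iff₀ hη] at a4
        linarith

/-- **The case of equality.** If the sum of the squares of `X` is `(∑ r_i²) Lam σ` and the products with
`π_i` have the sums `r_i Lam σ`, up to bounded errors, then `X` is close to `∑ r_i π_i`. -/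
theorem Cuspidal.equality [Fintype ι] (h : Cuspidal α) {X : PL S × ℕ → ℂ}
    (hX : ∀ σ : ℝ, 1 < σ → Sq σ X) (r : ι → ℝ)
    (hA : ∃ C : ℝ, ∀ᶠ σ : ℝ in 𝓝[>] 1, ip σ X X ≤ (∑ i, r i ^ 2) * Lam σ + C)
    (hr : ∀ i, ∃ C : ℝ, ∀ᶠ σ : ℝ in 𝓝[>] 1, |ip σ X (cj (α i)) - r i * Lam σ| ≤ C) :
    Summable fun x : PL S × ℕ => ‖X x - ∑ i, (r i : ℂ) * cj (α i) x‖ ^ 2 * wt 1 x := by
  classical
  obtain ⟨C, hC, hG⟩ := h.gram
  obtain ⟨C₁, hA⟩ := hA
  choose C₂ hr using hr
  set D : ℝ := C₁ + 2 * ∑ i, |r i| * C₂ i + ∑ i, ∑ j, |r i| * |r j| * C with hD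
  have hr' : ∀ᶠ σ : ℝ in 𝓝[>] 1, ∀ i, |ip σ X (cj (α i)) - r i * Lam σ| ≤ C₂ i :=
    eventually_all.2 hr
  have key : ∀ᶠ σ : ℝ in 𝓝[>] 1, (Summable fun x : PL S × ℕ =>
      ‖X x - ∑ i, (r i : ℂ) * cj (α i) x‖ ^ 2 * wt σ x) ∧
      ∑' x : PL S × ℕ, ‖X x - ∑ i, (r i : ℂ) * cj (α i) x‖ ^ 2 * wt σ x ≤ D := by
    filter_upwards [hG, hA, hr', self_mem_nhdsWithin] with σ a1 a2 a3 a4
    have hσ : (1 : ℝ) < σ := a4
    have b1 := hasSum_expand (hX σ hσ) (fun i => h.sq i hσ) r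
    refine ⟨b1.summable, ?_⟩
    rw [b1.tsum_eq]
    have b2 : -(∑ i, r i * ip σ X (cj (α i))) ≤ -((∑ i, r i ^ 2) * Lam σ) + ∑ i, |r i| * C₂ i := by
      rw [Finset.sum_mul, ← Finset.sum_neg_distrib, ← Finset.sum_neg_distrib,
        ← Finset.sum_add_distrib]
      refine Finset.sum_le_sum fun i _ => ?_
      have c1 : |r i * (ip σ X (cj (α i)) - r i * Lam σ)| ≤ |r i| * C₂ i := by
        rw [abs_mul]
        exact mul_le_mul_of_nonneg_left (a3 i) (abs_nonneg _)
      have c2 := (abs_le.1 c1).1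
      nlinarith
    have b3 : ∑ i, ∑ j, r i * r j * ip σ (cj (α i)) (cj (α j)) ≤
        (∑ i, r i ^ 2) * Lam σ + ∑ i, ∑ j, |r i| * |r j| * C := by
      rw [Finset.sum_mul, ← Finset.sum_add_distrib]
      refine Finset.sum_le_sum fun i _ => ?_
      have c0 : r i ^ 2 * Lam σ = ∑ j, r i * r j * (if i = j then Lam σ else 0) := by
        simp only [mul_ite, mul_zero, Finset.sum_ite_eq, Finset.mem_univ, if_true]
        ring
      rw [c0, ← Finset.sum_add_distrib]
      refine Finset.sum_le_sum fun j _ => ?_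
      have c1 : |r i * r j * (ip σ (cj (α i)) (cj (α j)) - (if i = j then Lam σ else 0))| ≤
          |r i| * |r j| * C := by
        rw [abs_mul, abs_mul]
        exact mul_le_mul_of_nonneg_left (a1 i j) (by positivity)
      have c2 := (abs_le.1 c1).2
      rw [mul_sub] at c2
      linarith
    rw [hD]
    linarith
  refine summable_of_sum_le (fun x => mul_nonneg (by positivity) (wt_nonneg 1 x)) (c := D) ?_
  intro s
  have hlim : Tendsto (fun σ : ℝ => ∑ x ∈ s,
      ‖X x - ∑ i, (r i : ℂ) * cj (α i) x‖ ^ 2 * wt σ x) (𝓝[>] 1)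
      (𝓝 (∑ x ∈ s, ‖X x - ∑ i, (r i : ℂ) * cj (α i) x‖ ^ 2 * wt 1 x)) := by
    refine tendsto_finsetSum _ fun x _ => Tendsto.const_mul _ ?_
    have hc : Continuous fun σ : ℝ => wt σ x := by
      unfold wt
      have hq := Pool.Agent.TH861.GL3.qq_pos x.1.1
      have : Continuous fun σ : ℝ => ((qq x.1.1 : ℕ) : ℝ) ^ (-σ) :=
        Continuous.rpow continuous_const continuous_neg fun _ => Or.inl hq.ne'
      fun_prop
    exact (hc.tendsto 1).mono_left nhdsWithin_le_nhds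
  refine le_of_tendsto hlim ?_
  filter_upwards [key] with σ hσ
  exact (hσ.1.sum_le_tsum s fun x _ => mul_nonneg (by positivity) (wt_nonneg σ x)).trans hσ.2

end Pool.Agent.Run7.h641.CT
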