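import Pool.Agent.Run7.h641.CT.Euler
import Pool.Agent.W540.BE.Size

/-!
# Elliptic curves over number fields: all cuspidal twists on the edge
-/

set_option autoImplicit false

namespace Pool.Agent.Run7.h641.CT

open NumberField IsDedekindDomain Filter Topology ComplexConjugate
open Pool.Agent.TH861.GL3 (PL qq)
open Pool.Agent.H921R2.TatePole (Lam)
open Run7.h911.RC (wt logL wt_nonneg summable_wt log_bdd Z_bdd wt_bound Z)
open Pool.Agent.W540.BE (trv)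

/-- `Λ` is a meromorphic continuation of `F` to a neighbourhood of `s₀`, from the half-plane to the
right of `s₀`. -/
def Continues (Λ F : ℂ → ℂ) (s₀ : ℂ) : Prop :=
  MeromorphicAt Λ s₀ ∧ ∀ᶠ s in 𝓝 s₀, s₀.re < s.re → Λ s = F s

theorem Lam_eq (ε : ℝ) : Lam (1 + ε) = Real.log (1 / ε) := by
  unfold Lam
  rw [add_sub_cancel_left]

theorem shift' : Tendsto (fun σ : ℝ => σ - 1) (𝓝[>] 1) (𝓝[>] 0) := by
  rw [tendsto_nhdsWithin_iff]
  constructor
  · have : Tendsto (fun σ : ℝ => σ - 1) (𝓝 1) (𝓝 (1 - 1)) := tendsto_id.sub tendsto_const_nhds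
    rw [sub_self] at this
    exact this.mono_left nhdsWithin_le_nhds
  · filter_upwards [self_mem_nhdsWithin] with σ hσ
    have hσ' : (1 : ℝ) < σ := hσ
    change (0 : ℝ) < σ - 1
    linarith

/-- The order of a continuation. -/
theorem order_cont {Λ F : ℂ → ℂ} {s₀ : ℂ} (hc : Continues Λ F s₀)
    (hne : ∀ᶠ ε : ℝ in 𝓝[>] 0, F (s₀ + ε) ≠ 0) :
    ∃ m : ℤ, meromorphicOrderAt Λ s₀ = m ∧ Tendsto (size F s₀) (𝓝[>] 0) (𝓝 (-(m : ℝ))) ∧
      ∃ C : ℝ, ∀ᶠ σ : ℝ in 𝓝[>] 1,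
        |Real.log ‖F (s₀ + ((σ - 1 : ℝ) : ℂ))‖ - -(m : ℝ) * Lam σ| ≤ C := by
  have hev : ∀ᶠ ε : ℝ in 𝓝[>] 0, Λ (s₀ + ε) = F (s₀ + ε) := by
    have h4 := (Pool.Agent.H341R2.path_tendsto' s₀).eventually hc.2
    filter_upwards [h4, self_mem_nhdsWithin] with ε h5 h6
    have hε : (0 : ℝ) < ε := h6
    refine h5 ?_
    rw [Complex.add_re, Complex.ofReal_re]
    linarith
  have hne' : ∀ᶠ ε : ℝ in 𝓝[>] 0, Λ (s₀ + ε) ≠ 0 := by
    filter_upwards [hev, hne] with ε h5 h6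
    rw [h5]
    exact h6
  obtain ⟨m, hm1, hm2⟩ := Pool.Agent.W540.BE.order_of_size hc.1 hne'
  obtain ⟨C, hC⟩ := Pool.Agent.H341R2.log_norm_meromorphic hc.1 hm1
  refine ⟨m, hm1, hm2.congr' ?_, C, ?_⟩
  · filter_upwards [hev] with ε h5
    unfold size
    rw [h5]
  · have h1 := shift'.eventually (hev.and hC)
    filter_upwards [h1] with σ h2
    obtain ⟨h3, -, h4⟩ := h2
    rw [h3] at h4
    have h5 : Lam σ = -Real.log (σ - 1) := by
      unfold Lam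
      rw [one_div, Real.log_inv]
    rw [h5]
    have h6 : -(m : ℝ) * -Real.log (σ - 1) = m * Real.log (σ - 1) := by ring
    rw [h6]
    exact h4

variable {K : Type} [Field K] [NumberField K] {S : Finset (HeightOneSpectrum (𝓞 K))}
  {W : WeierstrassCurve (𝓞 K)} {ι : Type*} {n : ι → ℕ} {α : ∀ i, PL S → Fin (n i) → ℂ}

theorem LE_ne_zero (h : Cuspidal α) {γ : PL S → Fin 2 → ℂ} (hg : Gam W γ) (i : ι) :
    ∀ᶠ ε : ℝ in 𝓝[>] 0, LE W (α i) (3 / 2 + ε) ≠ 0 := by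
  filter_upwards [self_mem_nhdsWithin] with ε hε
  have hε' : (0 : ℝ) < ε := hε
  exact (hg.LE_eq (h.bound i) hε' (h.sq i (by linarith))).1

/-- Bessel's inequality for `E`. -/
theorem ineq [Fintype ι] (h : Cuspidal α) {γ : PL S → Fin 2 → ℂ} (hg : Gam W γ) {η : ℝ}
    (hη : 0 < η) : ∀ᶠ ε : ℝ in 𝓝[>] 0,
      ∑ i, size (LE W (α i)) (3 / 2) ε ^ 2 ≤ 1 + size (LSym W S) 2 ε + η ∧
      size (LSym W S) 2 ε ≤ 3 + η := by
  obtain ⟨C, hC⟩ := wt_total S
  have hL4 := Lam_tendsto.eventually_ge_atTop (4 * |C| + 1)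
  have hM : ∀ᶠ σ : ℝ in 𝓝[>] 1, ip σ (XE γ) (XE γ) ≤ 5 * Lam σ := by
    have h1 : ∀ᶠ σ : ℝ in 𝓝[>] 1, 4 * |C| + 1 ≤ Lam σ := by
      have := shift'.eventually hL4
      refine this.mono fun σ hσ => ?_
      rwa [add_sub_cancel] at hσ
    filter_upwards [h1, hC, self_mem_nhdsWithin] with σ a1 a2 a3
    have b1 := (hg.ip_bounds a3).2
    have b2 := (abs_le.1 a2).2
    have b3 := le_abs_self C
    linarith
  have hη2 : 0 < η / 2 := by positivity
  have hb := h.bessel (X := XE γ) (fun σ hσ => hg.sq hσ) hM hη2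
  have hL := Lam_tendsto.eventually_ge_atTop (4 * |C| / (η / 2) + 1)
  filter_upwards [hb, hL, shift.eventually hC, self_mem_nhdsWithin] with ε b1 b2 b3 b4
  have hε : (0 : ℝ) < ε := b4
  have hσ : (1 : ℝ) < 1 + ε := by linarith
  have hLp : 0 < Lam (1 + ε) := lt_of_lt_of_le (by positivity) b2
  have e1 : ∀ i, ip (1 + ε) (XE γ) (cj (α i)) / Lam (1 + ε) = size (LE W (α i)) (3 / 2) ε := by
    intro i
    unfold size
    rw [(hg.LE_eq (h.bound i) hε (h.sq i hσ)).2, Lam_eq]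
  simp only [e1] at b1
  have e2 : ip (1 + ε) (XE γ) (XE γ) / Lam (1 + ε) =
      size (LSym W S) 2 ε + (∑' x : PL S × ℕ, wt (1 + ε) x) / Lam (1 + ε) := by
    unfold size
    rw [(hg.LSym_eq hε).2, ← Lam_eq, ← add_div, sub_add_cancel]
  have hc1 : |C| / Lam (1 + ε) ≤ η / 2 / 4 := by
    rw [div_le_iff₀ hLp]
    have h3 : 4 * |C| / (η / 2) ≤ Lam (1 + ε) := by linarith
    rw [div_le_iff₀ hη2] at h3
    linarith
  have e3 : (∑' x : PL S × ℕ, wt (1 + ε) x) / Lam (1 + ε) ≤ 1 + η / 2 / 4 := by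
    have h2 := (abs_le.1 b3).2
    calc (∑' x : PL S × ℕ, wt (1 + ε) x) / Lam (1 + ε) ≤ (Lam (1 + ε) + |C|) / Lam (1 + ε) := by
          refine div_le_div_of_nonneg_right ?_ hLp.le
          linarith [le_abs_self C]
      _ = 1 + |C| / Lam (1 + ε) := by rw [add_div, div_self hLp.ne']
      _ ≤ _ := by linarith
  constructor
  · rw [e2] at b1
    linarith
  · have h4 : size (LSym W S) 2 ε ≤ 3 * ((∑' x : PL S × ℕ, wt (1 + ε) x) / Lam (1 + ε)) := by
      unfold size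
      rw [(hg.LSym_eq hε).2, ← Lam_eq, ← mul_div_assoc]
      refine div_le_div_of_nonneg_right ?_ hLp.le
      linarith [(hg.ip_bounds hσ).2]
    linarith

theorem LSym_ne_zero {γ : PL S → Fin 2 → ℂ} (hg : Gam W γ) :
    ∀ᶠ ε : ℝ in 𝓝[>] 0, LSym W S (2 + ε) ≠ 0 := by
  filter_upwards [self_mem_nhdsWithin] with ε hε
  exact (hg.LSym_eq hε).1

/-- The orders. -/
theorem orders [Fintype ι] (h : Cuspidal α) {γ : PL S → Fin 2 → ℂ} (hg : Gam W γ)
    {Λ : ι → ℂ → ℂ} (hΛ : ∀ i, Continues (Λ i) (LE W (α i)) (3 / 2)) :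
    ∃ m : ι → ℤ, (∀ i, meromorphicOrderAt (Λ i) (3 / 2) = m i) ∧ ∑ i, m i ^ 2 ≤ 4 ∧
      ∀ M : ℂ → ℂ, Continues M (LSym W S) 2 → ∃ r : ℤ, meromorphicOrderAt M 2 = r ∧ -3 ≤ r ∧
        r + ∑ i, m i ^ 2 ≤ 1 ∧ (r + ∑ i, m i ^ 2 = 1 →
          Summable fun v : PL S =>
            ‖(trv W v.1 : ℂ) / ((Real.sqrt (qq v.1 : ℝ) : ℝ) : ℂ) +
              ∑ i, (m i : ℂ) * conj (tr (α i v) 1)‖ ^ 2 / (qq v.1 : ℝ)) := by
  choose m hm1 hm2 hm3 using fun i => order_cont (hΛ i) (LE_ne_zero h hg i)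
  have hsum : Tendsto (fun ε : ℝ => ∑ i, size (LE W (α i)) (3 / 2) ε ^ 2) (𝓝[>] 0)
      (𝓝 (∑ i, (m i : ℝ) ^ 2)) := by
    refine tendsto_finsetSum _ fun i _ => ?_
    have := (hm2 i).pow 2
    rwa [neg_sq] at this
  refine ⟨m, hm1, ?_, fun M hM => ?_⟩
  · have h1 : ∑ i, (m i : ℝ) ^ 2 ≤ 4 := by
      refine le_of_forall_pos_le_add fun η hη => ?_
      refine le_of_tendsto hsum ?_
      filter_upwards [ineq h hg (half_pos hη)] with ε hε
      linarith [hε.1, hε.2]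
    exact_mod_cast h1
  · obtain ⟨r, hr1, hr2, C₁, hr3⟩ := order_cont hM (LSym_ne_zero hg)
    have h1 : (r : ℝ) + ∑ i, (m i : ℝ) ^ 2 ≤ 1 := by
      have h2 : ∑ i, (m i : ℝ) ^ 2 ≤ 1 + -(r : ℝ) := by
        refine le_of_forall_pos_le_add fun η hη => ?_
        refine le_of_tendsto_of_tendsto hsum ((hr2.const_add 1).add_const η) ?_
        filter_upwards [ineq h hg hη] with ε hε
        exact hε.1
      linarith
    have h3 : (-3 : ℝ) ≤ r := by
      have h2 : -(r : ℝ) ≤ 3 := by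
        refine le_of_forall_pos_le_add fun η hη => ?_
        refine le_of_tendsto hr2 ?_
        filter_upwards [ineq h hg hη] with ε hε
        exact hε.2
      linarith
    refine ⟨r, hr1, by exact_mod_cast h3, by exact_mod_cast h1, fun heq => ?_⟩
    have heq' : (r : ℝ) + ∑ i, (m i : ℝ) ^ 2 = 1 := by exact_mod_cast heq
    obtain ⟨C₂, hC₂⟩ := wt_total S
    have hA : ∃ C : ℝ, ∀ᶠ σ : ℝ in 𝓝[>] 1,
        ip σ (XE γ) (XE γ) ≤ (∑ i, (-(m i : ℝ)) ^ 2) * Lam σ + C := by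
      refine ⟨C₁ + C₂, ?_⟩
      filter_upwards [hr3, hC₂, self_mem_nhdsWithin] with σ a1 a2 a3
      have hσ : (0 : ℝ) < σ - 1 := sub_pos.2 a3
      have e := (hg.LSym_eq hσ).2
      rw [add_sub_cancel] at e
      rw [e] at a1
      have b1 := (abs_le.1 a1).2
      have b2 := (abs_le.1 a2).2
      have b3 : ∑ i, (-(m i : ℝ)) ^ 2 = 1 - r := by
        simp only [neg_sq]
        linarith
      rw [b3]
      nlinarith
    have hr : ∀ i, ∃ C : ℝ, ∀ᶠ σ : ℝ in 𝓝[>] 1,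
        |ip σ (XE γ) (cj (α i)) - -(m i : ℝ) * Lam σ| ≤ C := by
      intro i
      obtain ⟨C, hC⟩ := hm3 i
      refine ⟨C, ?_⟩
      filter_upwards [hC, self_mem_nhdsWithin] with σ a1 a2
      have hσ1 : (1 : ℝ) < σ := a2
      have hσ : (0 : ℝ) < σ - 1 := by linarith
      have e := (hg.LE_eq (h.bound i) hσ (h.sq i (by linarith))).2
      rw [add_sub_cancel] at e
      rwa [e] at a1
    have hfin := h.equality (X := XE γ) (fun σ hσ => hg.sq hσ) (fun i => -(m i : ℝ)) hA hr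
    have hinj : Function.Injective fun v : PL S => ((v, 0) : PL S × ℕ) :=
      fun v w hvw => (Prod.mk.inj hvw).1
    refine (hfin.comp_injective hinj).congr fun v => ?_
    simp only [Function.comp_apply]
    have e1 : XE γ (v, 0) = (trv W v.1 : ℂ) / ((Real.sqrt (qq v.1 : ℝ) : ℝ) : ℂ) := by
      unfold XE
      rw [Fin.sum_univ_two, ← hg.sum v]
      simp
    have e2 : ∀ i, cj (α i) (v, 0) = conj (tr (α i v) 1) := fun i => rfl
    rw [e1, Run7.h911.RC.wt_zero, Real.rpow_neg_one, div_eq_mul_inv _ (qq v.1 : ℝ)]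
    congr 3
    rw [sub_eq_add_neg, ← Finset.sum_neg_distrib]
    congr 1
    refine Finset.sum_congr rfl fun i _ => ?_
    rw [e2]
    push_cast
    ring

end Pool.Agent.Run7.h641.CT
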